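import Pool.Agent.H607.Pw.Bases
import Mathlib

/-!
# One very sparse number `y` such that all tuples `(x_1 y + c_1, …, x_k y + c_k)` are simultaneously normal,
in all bases at once

For a set `A` of positive integers and an integer `b ≥ 2` let `y_b(A) = ∑_{a ∈ A} b^(-a)`, the number
whose base-`b` digits are `1` at the places `a ∈ A` and `0` at all other places.

There is one set `A` with at most `N (log log N)^3 / log N` elements up to `N` (for all large `N`), so of
density zero, such that for every base `b ≥ 2` the number `y = y_b(A)` has the following property. Let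
`B_1, …, B_r ≥ 2` be different bases, and for each of them let `x_{i1}, …, x_{ik}` be real algebraic numbers such
that `1, x_{i1}, …, x_{ik}` are linearly independent over `ℚ`, and let `c_{ij}` be any real algebraic
numbers. Then the digit matrices of the `r` tuples `(x_{i1} y + c_{i1}, …, x_{ik} y + c_{ik})`, the `i`-th
of them written in base `B_i`, are jointly equidistributed: all given `k × m` matrices `D_1, …, D_r` of digits
(in the bases `B_1, …, B_r`) occur together at the same place with frequency `∏ B_i ^ (- m k)`.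

In particular (`r = 1`) for all real algebraic `x_1, …, x_k` such that `1, x_1, …, x_k` are linearly
independent over `ℚ` the tuple `(x_1 y + c_1, …, x_k y + c_k)` is normal to EVERY base, and the expansions of this
tuple in different bases are independent of each other. For `y = 1`, `c = 0`, `r = 1` this would be the problem.

The same holds for the elements of any countable set `X` of real numbers instead of the algebraic
numbers, if the nontrivial linear combinations of `x_{i1}, …, x_{ik}` with integral coefficients are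
irrational and no Liouville numbers (for instance `x_{i1} = π`, or `x_{i1} = log 2`, `k = 1`).
-/

set_option autoImplicit false

namespace Pool.Agent.Results.MP_c8ecb2_nt.AllBasesAtOnce

open Finset Filter Topology MeasureTheory
open Pool.Agent.W206.ND (ee)
open Pool.Agent.H607 Pool.Agent.H607.Mix Pool.Agent.H607.Sp Pool.Agent.H607.Pw

/-- `r` tuples of `k` real numbers, and `r` bases: the digit matrices of the `r` tuples, the `i`-th of them written
in base `B i`, are jointly equidistributed. For `r = 1` this says that the tuple is normal to the base. -/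
def JointlyNormal {r k : ℕ} (B : Fin r → ℕ) (z : Fin r → Fin k → ℝ) : Prop :=
  ∀ (m : ℕ) (D : (i : Fin r) → Fin k → Fin m → Fin (B i)),
    Tendsto (fun N : ℕ => ({n : ℕ | n < N ∧ ∀ (i : Fin r) (j : Fin k) (t : Fin m),
      ⌊z i j * (B i : ℝ) ^ (n + 1 + (t : ℕ))⌋ % (B i : ℤ) = ((D i j t : ℕ) : ℤ)}.ncard : ℝ) / N)
      atTop (𝓝 (∏ i, 1 / (B i : ℝ) ^ (m * k)))

/-- the number with the base-`b` digits `1` at the places in `A` and `0` at the other places -/
noncomputable def number (A : Set ℕ) (b : ℕ) : ℝ := ∑' a : A, 1 / (b : ℝ) ^ (a : ℕ)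

/-- the random set -/
def AA (w : ℕ → ℕ) (ω : ∀ i, Fin (w i)) : Set ℕ := {i | i ≠ 0 ∧ (ω i : ℕ) = 0}

lemma aa_sum (w : ℕ → ℕ) (ω : ∀ i, Fin (w i)) (b : ℕ) : number (AA w ω) b = YY w b ω := by
  classical
  unfold number
  rw [tsum_subtype (AA w ω) (fun a : ℕ => 1 / (b : ℝ) ^ a)]
  unfold YY
  congr 1
  funext i
  unfold bt rr
  by_cases h1 : i = 0
  · rw [Set.indicator_of_notMem (by intro h; exact h.1 h1), if_pos h1, mul_zero]
  · by_cases h2 : (ω i : ℕ) = 0
    · rw [Set.indicator_of_mem (show i ∈ AA w ω from ⟨h1, h2⟩), if_pos h2, if_neg h1, one_mul]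
    · rw [Set.indicator_of_notMem (by intro h; exact h2 h.2), if_neg h2, zero_mul]

lemma aa_card (w : ℕ → ℕ) (ω : ∀ i, Fin (w i)) (N : ℕ) :
    ((AA w ω ∩ Set.Icc 1 N).ncard : ℝ) ≤ Ct w (N + 1) ω := by
  classical
  have h1 : AA w ω ∩ Set.Icc 1 N =
      (((range (N + 1)).filter (fun i => i ≠ 0 ∧ (ω i : ℕ) = 0) : Finset ℕ) : Set ℕ) := by
    ext i
    simp only [AA, Set.mem_inter_iff, Set.mem_ofPred_eq, Set.mem_Icc, coe_filter, mem_range]
    constructor
    · rintro ⟨⟨h1, h2⟩, h3, h4⟩
      exact ⟨by omega, h1, h2⟩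
    · rintro ⟨h1, h2, h3⟩
      exact ⟨⟨h2, h3⟩, by omega, by omega⟩
  rw [h1, Set.ncard_coe_finset, card_filter]
  push_cast
  unfold Ct
  refine sum_le_sum fun i _ => ?_
  unfold bt
  split_ifs with h2 h3 h3
  · exact le_rfl
  · exact absurd h2.2 h3
  · norm_num
  · exact le_rfl

lemma aa_count [∀ i, NeZero (wg 1 2 i)] :
    ∀ᵐ ω ∂(unif (wg 1 2)), ∀ᶠ N : ℕ in atTop, ((AA (wg 1 2) ω ∩ Set.Icc 1 N).ncard : ℝ) ≤
      N * (Real.log (Real.log N)) ^ 3 / Real.log N := by
  have h := as_count (wg 1 2) (Ex_summable le_rfl (by norm_num))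
    (Eventually.of_forall fun j => Ex_pos le_rfl (by norm_num) _ Nat.one_le_two_pow)
  filter_upwards [h] with ω hω
  filter_upwards [(tendsto_add_atTop_nat 1).eventually hω, count_final 1 2 (by norm_num)] with N h1 h2
  have h3 := (aa_card _ ω N).trans (h1.trans h2)
  simpa using h3

/-- the combinations of algebraic numbers which are independent together with `1` -/
lemma alg_cond {k : ℕ} {x : Fin k → ℝ} (hx : ∀ j, IsAlgebraic ℚ (x j))
    (hlin : LinearIndependent ℚ (Fin.cons 1 x : Fin (k + 1) → ℝ)) (h : Fin k → ℤ) (hh : h ≠ 0) :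
    Irrational (∑ j, (h j : ℝ) * x j) ∧ ¬ Liouville (∑ j, (h j : ℝ) * x j) := by
  constructor
  · rintro ⟨q, hr⟩
    rw [Fintype.linearIndependent_iff] at hlin
    have h1 := hlin (Fin.cons (-q) fun j => (h j : ℚ)) (by
      rw [Fin.sum_univ_succ]
      simp only [Fin.cons_zero, Fin.cons_succ, Rat.smul_def, Rat.cast_neg, Rat.cast_intCast, mul_one]
      rw [hr]
      ring)
    apply hh
    funext j
    have h2 := h1 j.succ
    rw [Fin.cons_succ] at h2
    exact_mod_cast h2
  · intro hL
    have h1 : IsAlgebraic ℚ (∑ j, (h j : ℝ) * x j) := by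
      refine Finset.sum_induction _ (fun z => IsAlgebraic ℚ z) (fun _ _ ha hb => ha.add hb)
        isAlgebraic_zero fun j _ => ?_
      exact IsAlgebraic.mul (isAlgebraic_intCast (h j)) (hx j)
    exact hL.transcendental ((IsFractionRing.isAlgebraic_iff ℤ ℚ ℝ).2 h1)

theorem result (X : Set ℝ) (hX : X.Countable) :
    ∃ A : Set ℕ, 0 ∉ A ∧
      (∀ᶠ N : ℕ in atTop, ((A ∩ Set.Icc 1 N).ncard : ℝ) ≤
        N * (Real.log (Real.log N)) ^ 3 / Real.log N) ∧
      ∀ b : ℕ, 2 ≤ b →
        (∀ (r k : ℕ) (B : Fin r → ℕ) (x c : Fin r → Fin k → ℝ), (∀ i, 2 ≤ B i) → Function.Injective B →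
          (∀ i j, IsAlgebraic ℚ (x i j)) → (∀ i j, IsAlgebraic ℚ (c i j)) →
          (∀ i, LinearIndependent ℚ (Fin.cons 1 (x i) : Fin (k + 1) → ℝ)) →
          JointlyNormal B (fun i j => x i j * number A b + c i j)) ∧
        ∀ (r k : ℕ) (B : Fin r → ℕ) (x c : Fin r → Fin k → ℝ), (∀ i, 2 ≤ B i) → Function.Injective B →
          (∀ i j, x i j ∈ X) → (∀ i j, c i j ∈ X) →
          (∀ i, ∀ h : Fin k → ℤ, h ≠ 0 → Irrational (∑ j, (h j : ℝ) * x i j) ∧
            ¬ Liouville (∑ j, (h j : ℝ) * x i j)) →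
          JointlyNormal B (fun i j => x i j * number A b + c i j) := by
  classical
  haveI : ∀ i, NeZero (wg 1 2 i) := fun i => ⟨by have := wg_two 1 2 i; omega⟩
  set X' : Set ℝ := X ∪ {y : ℝ | IsAlgebraic ℚ y} with hX'
  have hXc : X'.Countable := hX.union (Algebraic.countable ℚ ℝ)
  haveI := hXc.to_subtype
  have hae : ∀ᵐ ω ∂(unif (wg 1 2)), ∀ (b r k : ℕ) (B : Fin r → ℕ) (x c : Fin r → Fin k → X')
      (g : Fin r × Fin k → ℤ),
      (2 ≤ b ∧ (∀ i, 2 ≤ B i) ∧ Function.Injective B ∧
        (∀ i, ∀ h : Fin k → ℤ, h ≠ 0 → Irrational (∑ j, (h j : ℝ) * (x i j : ℝ)) ∧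
          ¬ Liouville (∑ j, (h j : ℝ) * (x i j : ℝ))) ∧ g ≠ 0) →
      Tendsto (fun N : ℕ => SS (fun n => ∑ p, (g p : ℝ) * (((x p.1 p.2 : ℝ) * YY (wg 1 2) b ω +
        (c p.1 p.2 : ℝ)) * (B p.1 : ℝ) ^ n)) N / (N : ℂ)) atTop (𝓝 0) := by
    simp only [ae_all_iff]
    intro b r k B x c g
    rintro ⟨h1, h2, h3, h4, h5⟩
    exact as_bases h1 B h2 h3 (fun i j => (x i j : ℝ)) (fun i j => (c i j : ℝ)) h4 g h5
  obtain ⟨ω, hω1, hω2⟩ := (hae.and aa_count).exists
  refine ⟨AA (wg 1 2) ω, fun h => h.1 rfl, hω2, fun b hb => ?_⟩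
  have hmain : ∀ (r k : ℕ) (B : Fin r → ℕ) (x c : Fin r → Fin k → ℝ), (∀ i, 2 ≤ B i) → Function.Injective B →
          (∀ i j, x i j ∈ X') → (∀ i j, c i j ∈ X') →
          (∀ i, ∀ h : Fin k → ℤ, h ≠ 0 → Irrational (∑ j, (h j : ℝ) * x i j) ∧
            ¬ Liouville (∑ j, (h j : ℝ) * x i j)) →
          JointlyNormal B (fun i j => x i j * number (AA (wg 1 2) ω) b + c i j) := by
    intro r k B x c hB hinj hx hc hcond m D
    refine digits_of_equid B hB (fun i j => x i j * number (AA (wg 1 2) ω) b + c i j) ?_ m D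
    rw [aa_sum]
    apply equid_of_weyl
    intro g hg
    exact hω1 b r k B (fun i j => ⟨x i j, hx i j⟩) (fun i j => ⟨c i j, hc i j⟩) g
      ⟨hb, hB, hinj, hcond, hg⟩
  refine ⟨fun r k B x c hB hinj hx hc hlin => ?_, fun r k B x c hB hinj hx hc hcond => ?_⟩
  · exact hmain r k B x c hB hinj (fun i j => Or.inr (hx i j)) (fun i j => Or.inr (hc i j))
      (fun i h hh => alg_cond (hx i) (hlin i) h hh)
  · exact hmain r k B x c hB hinj (fun i j => Or.inl (hx i j)) (fun i j => Or.inl (hc i j)) hcond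

end Pool.Agent.Results.MP_c8ecb2_nt.AllBasesAtOnce
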