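import Pool.Agent.H609.ET.Main

/-!
# Explicit tuples of algebraic numbers, of arbitrary degrees, with jointly equidistributed digits

Let `b ≥ 2` be a base, `p 1, ..., p k` distinct odd primes which do not divide `b` and `d 1, ..., d k ≥ 2`. For
all large `n` and all `r 1, ..., r k ≥ 0` the numbers

  `α i = (1 + (d i) ^ 2 (p i) / b ^ n) ^ (1 / d i) / (p i) ^ (r i)`

are algebraic of degree exactly `d i`, the numbers `1, α 1, ..., α k` are linearly independent over `ℚ`, and in
EVERY window of places `s ≤ j < s + L` and for EVERY box `∏ [u i, v i) ⊆ [0, 1) ^ k` the number of the `j` with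
`u i ≤ {b ^ j α i} < v i` for all `i` is `L ∏ (v i - u i)` up to an error of at most

  `C (L ∑ 1 / q i + (∏ q i + (s + L) / n) (L / n + 1))`,  `q i = (p i) ^ (r i)`,

where `C` depends on `b`, the `p i` and the `d i` only. For `u i = a i / b ^ m` and `v i = (a i + 1) / b ^ m` this
is the number of the occurrences of the digit matrix whose rows are the words of `m` digits of the integers
`a i`. If all `q i` are about `n ^ (1 / (k + 1))`, the logarithms of the heights of the `α i` are of the order
of `n`, and the error in a window of length `L ≥ n` is at most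
`C' L (n ^ (-1 / (k + 1)) + (s + L) / n ^ 2)`. So, with `H` the largest height of the tuple, the first `N`
digits are jointly equidistributed, digit matrices with any number of columns included, if `N / log H → ∞` and
`N / (log H) ^ 2 → 0`.

The general theorem is about the values `S i = F i (b ^ (-n))` of power series `F i` with integral
coefficients, algebraic over `ℚ(x)`, linearly independent over `ℚ(x)` together with `1`, and such that `F i`
is constant and not `0` modulo `p i`: the tuples `S i / (p i) ^ (r i)` have the same properties.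

No exceptional set occurs. The earlier results on joint digits of algebraic tuples (library:
`SuperlogTuples`; `MP_c8ecb2_nt.JointLogSquaredDigits`) hold for most members of large families and do not
give a single tuple; `MP_f2f914_nt.ExplicitNumbers` is about one number and has arbitrary denominators `q`.

Proof. Between the places `n κ` and `n (κ + 1)`, except for the last `O(κ + 1)` of them, `b ^ j α i` is
congruent modulo `1` to `b ^ l U i / q i` up to an error of at most `1 / (2 q i)`, with integers `U i = U i (κ)`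
which are not divisible by `p i`. Put `t = ∏ (p i - 1)` and `b ^ t = 1 + (p i) ^ (a i) w i`, `p i ∤ w i`. The powers of
`b ^ t` run, modulo each `q i`, through all the residue classes which are `1` modulo `(p i) ^ (a i)`, with the
period `(p i) ^ (r i - a i)`, and by the Chinese remainder theorem they do so independently for the different
primes (`ET.P_CNT`, `ET.P_CRT`, `ET.P_RUN`). Then arbitrary windows are cut into full periods
(`ET.P_BLK`, `ET.Digits`). The functions `1, (1 + c i x) ^ (1 / d i)` with distinct `c i ≠ 0` are linearly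
independent over `ℚ(x)`, as the logarithmic derivative of a quotient of two coefficients of a shortest
relation would have the residue `1 / d i` at `-1 / c i` (`ET.P_IND`); the linear independence of the values for
large `n` follows by Siegel's method (`JT.Deg`, `JT.Ind`).
-/

set_option autoImplicit false

namespace Pool.Agent.Results.MP_c8ecb2_nt.ExplicitTuples

open Finset

open Classical in
/-- In all windows of places `s ≤ j < s + L` and for all boxes `∏ [u i, v i) ⊆ [0, 1) ^ k` the number of the
`j` with `u i ≤ {b ^ j α i} < v i` for all `i` is `L ∏ (v i - u i)` up to an error of at most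
`C (L ∑ 1 / q i + (∏ q i + (s + L) / n) (L / n + 1))`. (With `u i = a i / b ^ m` and `v i = (a i + 1) / b ^ m` these
are the occurrences of a digit matrix with `k` rows and `m` columns.) -/
def JointlyControlled {k : ℕ} (b n : ℕ) (q : Fin k → ℝ) (C : ℝ) (α : Fin k → ℝ) : Prop :=
  ∀ (s L : ℕ) (u v : Fin k → ℝ), (∀ i, 0 ≤ u i) → (∀ i, u i ≤ v i) → (∀ i, v i ≤ 1) →
    |((({j ∈ range L | ∀ i, u i ≤ Int.fract ((b : ℝ) ^ (s + j) * α i) ∧
      Int.fract ((b : ℝ) ^ (s + j) * α i) < v i} : Finset ℕ).card : ℕ) : ℝ) -
      (∏ i, (v i - u i)) * L| ≤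
      C * (L * ∑ i, 1 / q i + (∏ i, q i + (s + L) / n) * (L / n + 1))

/-- **Explicit algebraic tuples with jointly equidistributed digits.** Let `b ≥ 2` and let the `p i` be
distinct odd primes not dividing `b`. (1) For all `d i ≥ 2` and all large `n` the numbers
`α i = (1 + (d i) ^ 2 (p i) / b ^ n) ^ (1 / d i) / (p i) ^ (r i)` are algebraic of degree `d i`, linearly
independent over `ℚ` together with `1`, and their digits in base `b` are jointly controlled in all windows.
(2) The same for the values at `b ^ (-n)`, divided by `(p i) ^ (r i)`, of power series `F i` with integral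
coefficients which are algebraic, linearly independent over `ℚ(x)` together with `1`, and modulo `p i`
constant and not `0`. -/
theorem result (b : ℕ) (hb : 2 ≤ b) (k : ℕ) (p : Fin k → ℕ) (hp : ∀ i, (p i).Prime)
    (hp2 : ∀ i, p i ≠ 2) (hinj : Function.Injective p) (hpb : ∀ i, ¬ p i ∣ b) :
    (∀ d : Fin k → ℕ, (∀ i, 2 ≤ d i) → ∃ C : ℝ, 0 < C ∧ ∃ n₀ : ℕ, ∀ n : ℕ, n₀ ≤ n →
      ∀ r : Fin k → ℕ,
        let α : Fin k → ℝ := fun i =>
          (1 + (d i : ℝ) ^ 2 * p i / (b : ℝ) ^ n) ^ (1 / (d i : ℝ)) / (p i : ℝ) ^ r i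
        (∀ i, (minpoly ℚ (α i)).natDegree = d i) ∧
          LinearIndependent ℚ (Fin.cons 1 α : Fin (k + 1) → ℝ) ∧
          JointlyControlled b n (fun i => (p i : ℝ) ^ r i) C α) ∧
    (∀ F : Fin k → PowerSeries ℤ,
      (∀ i, IsAlgebraic (Polynomial ℚ) ((F i).map (Int.castRingHom ℚ))) →
      (∀ (P₀ : Polynomial ℚ) (P : Fin k → Polynomial ℚ),
        (P₀ : PowerSeries ℚ) + ∑ i, (P i : PowerSeries ℚ) * (F i).map (Int.castRingHom ℚ) = 0 →
          P = 0) →
      (∀ i, ¬ (p i : ℤ) ∣ PowerSeries.coeff 0 (F i)) →
      (∀ i l, 1 ≤ l → (p i : ℤ) ∣ PowerSeries.coeff l (F i)) →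
      ∃ A : ℕ, ∃ C : ℝ, 0 < C ∧ ∃ n₀ : ℕ, ∀ n : ℕ, n₀ ≤ n → ∃ S : Fin k → ℝ,
        (∀ i, HasSum (fun l : ℕ => ((PowerSeries.coeff l (F i) : ℤ) : ℝ) *
          (((b : ℝ) ^ n)⁻¹) ^ l) (S i)) ∧
        (∀ i, ∃ R : Polynomial ℤ, R ≠ 0 ∧ R.natDegree ≤ A ∧
          (∀ l, |R.coeff l| ≤ (b : ℤ) ^ (A * n)) ∧ Polynomial.aeval (S i) R = 0) ∧
        ∀ r : Fin k → ℕ,
          LinearIndependent ℚ (Fin.cons 1 (fun i => S i / (p i : ℝ) ^ r i) : Fin (k + 1) → ℝ) ∧
          JointlyControlled b n (fun i => (p i : ℝ) ^ r i) C (fun i => S i / (p i : ℝ) ^ r i)) := by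
  have hodd : ∀ i, Odd (p i) := fun i => (hp i).odd_of_ne_two (hp2 i)
  refine ⟨fun d hd => ?_, fun F hF hind h0 hk => ?_⟩
  · obtain ⟨C, hC, n₀, h⟩ := Pool.Agent.H609.ET.roots hb p hp hodd hinj hpb d hd
    exact ⟨C, hC, n₀, fun n hn r => h n hn r⟩
  · obtain ⟨A, C, hC, n₀, h⟩ := Pool.Agent.H609.ET.general hb p hp hodd hinj hpb F hF hind h0 hk
    exact ⟨A, C, hC, n₀, fun n hn => h n hn⟩

end Pool.Agent.Results.MP_c8ecb2_nt.ExplicitTuples
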