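import Pool.Agent.H723.QJ.CombMost

/-!
# MP_c8ecb2_nt: the expansions of several algebraic numbers, in all bases

Let `α_1, …, α_k` be real algebraic numbers such that `1, α_1, …, α_k` are linearly independent
over `ℚ` (for instance `√2, √3, √6`), and let `digit b α n` be the `n`-th digit of `α` after the
point in base `b`.

1. For every `D` there is a constant `A`, which depends on the `α_i` and `D` only, so that for
   **all** bases `b` and all real `C ≥ 1`: the lengths `n` for which some `D` different windows of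
   `n` digits of the numbers `α_i` (of one or of several of them), which start at places `≤ C n`,
   are linearly dependent over the real numbers contain at most `A C ^ 2 (1 + log C)` lengths each
   of which is at least twice the preceding one.
2. Almost all lengths, in the sense of logarithmic density: for every `D` and `ε > 0` there are
   `c > 0` and `N₀`, so that for all bases and all `N ≥ N₀`, for all `n ≤ N` outside a set `E` with
   `∑ n ∈ E, 1 / n ≤ ε log N`, any `D` different windows of `n` digits of the numbers `α_i` which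
   start at places `≤ c n (log N / log log N) ^ (1 / 2)` are linearly independent.  In particular,
   no block of `n` digits occurs in two of the expansions, or twice in one of them, at these
   places.
3. Also for almost all lengths in the same sense, and uniformly in the base and in the real
   coefficients `a i j` which are not all zero: the sequence `∑ i, ∑ j < D, a i j * digit b (α i)
   (m + j)`, `m ≥ 1`, has at least `c n (log N / log log N) ^ (1 / 2)` different blocks of `n`
   consecutive terms (for instance the sequence of the sums of the digits of `√2` and `√3` at the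
   same place).

The proof is a quantitative subspace theorem (for the linear forms `∑ x_(c,i) α_i b ^ (e_c) - P`)
with auxiliary polynomials whose weights are different for each approximation, and a version of
Roth's lemma with a polynomial condition for the quotients of the degrees, which comes from an
elementary form of Faltings' product theorem.
-/

set_option autoImplicit false

namespace Pool.Agent.Results.MP_c8ecb2_nt.IndependentExpansions

open Finset Pool.Agent.H723.QJ

/-- the `n`-th digit after the point of `ξ` in base `b` -/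
noncomputable def digit (b : ℕ) (ξ : ℝ) (n : ℕ) : ℤ := ⌊ξ * (b : ℝ) ^ n⌋ % (b : ℤ)

/-- the number of the different blocks of `n` consecutive terms of the sequence
`∑ l, ∑ j, a l j * digit b (α l) (m + j)`, `m ≥ 1` -/
noncomputable def combComplexity {k r : ℕ} (b : ℕ) (α : Fin k → ℝ) (a : Fin k → Fin r → ℝ)
    (n : ℕ) : ℕ :=
  (Set.range (fun (t : ℕ) (i : Fin n) =>
    ∑ l, ∑ j : Fin r, a l j * (digit b (α l) (t + i + 1 + j) : ℝ))).ncard

/-- Windows of the digits of several algebraic numbers, in all bases. -/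
theorem result {k : ℕ} (α : Fin k → ℝ) (hα : ∀ i, IsAlgebraic ℚ (α i))
    (hlin : LinearIndependent ℚ (Fin.cons 1 α : Fin (k + 1) → ℝ)) (D : ℕ) :
    (∃ A : ℝ, ∀ b : ℕ, 2 ≤ b → ∀ C : ℝ, 1 ≤ C → ∀ S : Finset ℕ, (∀ n ∈ S, 1 ≤ n) →
      (∀ n ∈ S, ∀ n' ∈ S, n < n' → 2 * n ≤ n') →
      (∀ n ∈ S, ∃ t : Fin D → Fin k × ℕ, Function.Injective t ∧ (∀ l, ((t l).2 : ℝ) ≤ C * n) ∧
        ¬ LinearIndependent ℝ (fun (l : Fin D) (j : Fin n) =>
          (digit b (α (t l).1) ((t l).2 + j + 1) : ℝ))) →
      (#S : ℝ) ≤ A * (C ^ 2 * (1 + Real.log C))) ∧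
    (∀ ε : ℝ, 0 < ε → ∃ c : ℝ, 0 < c ∧ ∃ N₀ : ℕ, ∀ b : ℕ, 2 ≤ b → ∀ N ≥ N₀, ∃ E : Finset ℕ,
      ∑ n ∈ E, (1 : ℝ) / n ≤ ε * Real.log N ∧
      ∀ n : ℕ, 1 ≤ n → n ≤ N → n ∉ E → ∀ t : Fin D → Fin k × ℕ, Function.Injective t →
        (∀ l, ((t l).2 : ℝ) ≤ c * (n * (Real.log N / Real.log (Real.log N)) ^ (1 / 2 : ℝ))) →
        LinearIndependent ℝ (fun (l : Fin D) (i : Fin n) =>
          (digit b (α (t l).1) ((t l).2 + i + 1) : ℝ))) ∧
    (∀ ε : ℝ, 0 < ε → ∃ c : ℝ, 0 < c ∧ ∃ N₀ : ℕ, ∀ b : ℕ, 2 ≤ b → ∀ N ≥ N₀, ∃ E : Finset ℕ,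
      ∑ n ∈ E, (1 : ℝ) / n ≤ ε * Real.log N ∧
      ∀ n : ℕ, 1 ≤ n → n ≤ N → n ∉ E → ∀ a : Fin k → Fin D → ℝ, a ≠ 0 →
        c * (n * (Real.log N / Real.log (Real.log N)) ^ (1 / 2 : ℝ)) ≤
          combComplexity b α a n) := by
  refine ⟨?_, fun ε hε => mostN α hα hlin D ε hε, fun ε hε => comb_most α hα hlin D ε hε⟩
  obtain ⟨A, _, h⟩ := thinV α hα hlin D
  refine ⟨A, fun b hb C hC S h1 h2 h3 => h b hb C hC S ⟨h1, h2⟩ fun n hn => ?_⟩
  obtain ⟨t, ht1, ht2, ht3⟩ := h3 n hn
  exact ⟨D, le_rfl, t, ht1, ht2, ht3⟩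

end Pool.Agent.Results.MP_c8ecb2_nt.IndependentExpansions
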