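import Pool.Agent.H609.JT.Values

/-!
# Independent tuples of algebraic numbers of height `H` with `c (log H) ^ 2` jointly normal digits

Let `f 1, ..., f d` be power series with rational coefficients which are algebraic over `ℚ(x)` and such that
`1, f 1, ..., f d` are linearly independent over `ℚ(x)`; for instance the powers `g, ..., g ^ (r - 1)` of
`g = (1 + x) ^ (1/r)`, or square roots of several polynomials. There are `A` and `c > 0`, which depend on the
series only, such that for every base `b ≥ 2`, all `w` and `ε > 0` and all large `n`: the values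
`α j = f j (b ^ (-n))` exist; each `α j` is a root of a nonzero integral polynomial of degree at most `A` with
coefficients at most `b ^ (A n)`; the numbers `1, α 1, ..., α d` are linearly independent over `ℚ`; and for
every `M ≥ b ^ (A n)` and all real `y 1, ..., y d` the tuples `(y 1 + m α 1, ..., y d + m α d)`, `m < M`, except for
`M exp (-κ n)` of them (`κ > 0` depends on the series, `b`, `w` and `ε`), are jointly nearly normal up to the
place `c n ^ 2`: every digit matrix with `d` rows and `k ≤ w` columns stands `N b ^ (-k d)` times in every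
window of `N` places among the first `c n ^ 2` ones, up to an error of at most `ε (N + n)`.

With `y = 0`, `M = b ^ (A n)` and `1 ≤ m < M` these are tuples of algebraic numbers of bounded degree, of
heights `H` at most `b ^ (C n)`, which satisfy the hypothesis of the problem, and a constant times
`(log H) ^ 2` digits of each number are controlled, jointly. Earlier results on the joint digits of the
tuples of a family reach at most `(log H) ^ (3/2 - ε)` digits.

Proof (in `Pool.Agent.H609.JT`). (`MP_5b6025_nt.LogSquaredDigits` is about `P(m) + m ^ K α`, one number.) By Fourier analysis with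
the products of Fejér's kernels (`Win`, `Nor`) it suffices that all combinations `∑ u j b ^ i α j` with
integers `u j`, not all `0`, `|u j| ≤ b ^ (δ n)`, and `i ≤ c n ^ 2`, have distance at least `b ^ (-g n)` from the
integers. Such a combination is the value of the series `∑ u j f j`. It is important that these series
satisfy one linear differential equation with polynomial coefficients, the same for all `u` (`Ode2`): they
lie in the field generated by the `f j`, which has a primitive element `θ` (`Prim`), and are combinations of
the iterated derivatives of the generators. So all of them satisfy the same linear recurrence and the gaps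
between nonzero coefficients are bounded uniformly in `u`, as no combination is a polynomial (`Rec`); a
nonzero coefficient of index `k` is at least `C ^ (-k - 1)` by the theorem of Eisenstein. This gives the lower
bounds (`Key`, `Main`).

For the linear independence of the values, the degree of `θ (b ^ (-n))` over `ℚ` is shown to be the degree of
`θ` over `ℚ(x)` for large `n` (a case of a theorem of Sprindzhuk; the proof in `Norm`, `Deg` is by Siegel's
method: an auxiliary polynomial `E = ∑ Q i θ ^ i`, which vanishes at `0` to a high order, takes a nonzero value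
at `b ^ (-n)`, whose norm is too small if the degree is smaller). Then a right inverse of the matrix of the
coefficients of the `f j` with respect to the powers of `θ` is evaluated at `b ^ (-n)` (`Ind`).
-/

set_option autoImplicit false

namespace Pool.Agent.Results.MP_c8ecb2_nt.JointLogSquaredDigits

open Finset

/-- the word of the `k` digits in base `b` of `z` which follow the first `n` digits after the point,
read as an integer between `0` and `b ^ k - 1` -/
noncomputable def word (b k n : ℕ) (z : ℝ) : ℕ :=
  ⌊(b : ℝ) ^ k * Int.fract ((b : ℝ) ^ n * z)⌋₊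

/-- every digit matrix with `d` rows and `k ≤ w` columns, the rows of which are the words of `k` digits of
the integers `j l < b ^ k`, has the right frequency in every window of the first `D` places of the tuple
`z`, up to an error `ε N + E`, where `N` is the length of the window -/
def JointlyNormalUpTo {d : ℕ} (b w D : ℕ) (ε E : ℝ) (z : Fin d → ℝ) : Prop :=
  ∀ (k s N : ℕ) (j : Fin d → ℕ), 1 ≤ k → k ≤ w → (∀ l, j l < b ^ k) → s + N ≤ D →
    |((({i ∈ range N | ∀ l, word b k (s + i) (z l) = j l} : Finset ℕ).card : ℕ) : ℝ) -
      N / (b : ℝ) ^ (k * d)| ≤ ε * N + E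

/-- **Joint digits of the values of algebraic functions at `b ^ (-n)`.** Let `f 1, ..., f d` be power series
over `ℚ`, algebraic over `ℚ(x)`, such that `1, f 1, ..., f d` are linearly independent over `ℚ(x)`. For
large `n` the numbers `α j = f j (b ^ (-n))` are algebraic, of bounded degree and of height at most `b ^ (C n)`,
the numbers `1, α 1, ..., α d` are linearly independent over `ℚ`, and most of the tuples `y + m α`, `m < M`, are
jointly nearly normal in base `b` up to the place `c n ^ 2`. -/
theorem result (d : ℕ) (f : Fin d → PowerSeries ℚ) (hf : ∀ l, IsAlgebraic (Polynomial ℚ) (f l))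
    (hind : ∀ (P₀ : Polynomial ℚ) (P : Fin d → Polynomial ℚ),
      (P₀ : PowerSeries ℚ) + ∑ l, (P l : PowerSeries ℚ) * f l = 0 → P = 0) :
    ∃ A : ℕ, ∃ c : ℝ, 0 < c ∧ ∀ b : ℕ, 2 ≤ b → ∀ w : ℕ, ∀ ε : ℝ, 0 < ε →
      ∃ κ : ℝ, 0 < κ ∧ ∃ n₀ : ℕ, ∀ n : ℕ, n₀ ≤ n → ∃ α : Fin d → ℝ,
        (∀ l, HasSum (fun k : ℕ => ((PowerSeries.coeff k (f l) : ℚ) : ℝ) *
          (((b : ℝ) ^ n)⁻¹) ^ k) (α l)) ∧
        (∀ l, ∃ R : Polynomial ℤ, R ≠ 0 ∧ R.natDegree ≤ A ∧
          (∀ k, |R.coeff k| ≤ (b : ℤ) ^ (A * n)) ∧ Polynomial.aeval (α l) R = 0) ∧
        LinearIndependent ℚ (Fin.cons 1 α : Fin (d + 1) → ℝ) ∧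
        ∀ M : ℕ, b ^ (A * n) ≤ M → ∀ y : Fin d → ℝ,
          (({m : ℕ | m < M ∧ ¬ JointlyNormalUpTo b w ⌊c * (n : ℝ) ^ 2⌋₊ ε (ε * n)
            (fun l => y l + m * α l)}.ncard : ℕ) : ℝ) ≤ M * Real.exp (-(κ * n)) := by
  classical
  obtain ⟨A, c, hc, h⟩ := Pool.Agent.H609.JT.values f hf hind
  refine ⟨A, c, hc, fun b hb w ε hε => ?_⟩
  obtain ⟨κ, hκ, n₀, h⟩ := h b hb w ε hε
  refine ⟨κ, hκ, n₀, fun n hn => ?_⟩
  obtain ⟨h1, h2, h3, h4⟩ := h n hn
  refine ⟨fun l => Pool.Agent.H609.GF.ev (((b : ℝ) ^ n)⁻¹) (f l),
    fun l => (h1 l).of_norm.hasSum, h2, h3, fun M hM y => ?_⟩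
  have h5 := h4 ⌊c * (n : ℝ) ^ 2⌋₊ M (Nat.floor_le (by positivity)) hM y
  rw [← Set.ncard_coe_finset] at h5
  refine le_trans (le_of_eq ?_) h5
  congr 2
  ext m
  simp only [Set.mem_setOf_eq, coe_filter, mem_range]
  refine and_congr_right fun _ => not_congr ?_
  unfold JointlyNormalUpTo Pool.Agent.H609.JT.JN
  simp only [pow_mul]
  rfl

end Pool.Agent.Results.MP_c8ecb2_nt.JointLogSquaredDigits
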